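import Pool.Agent.H58.FL.Targets

/-!
# Board `flb_modules`, row FUN: the fundamental cycle
-/

set_option autoImplicit false

noncomputable section

open Topology

namespace Pool.Agent.H99.FL

open Pool.Agent.H58.FL Pool.Agent.H59 Pool.Agent.H48.FR

theorem cont_aN (hMUL : T_MUL) (n N : ℕ) :
    Continuous fun y : Fin (2 * n) → ℝ => (aN N y : Fin n → Fin 2 → ℂ) := by
  have h2 := (hMUL n).2.2.2
  generalize hf : (fun p : ℝ × ℝ => at2 p.1 p.2) = f at h2
  have hf2 : ∀ s t, at2 s t = f (s, t) := fun s t => by rw [← hf]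
  unfold aN
  simp only [hf2]
  refine continuous_pi fun l => ?_
  have h1 : Continuous fun y : Fin (2 * n) → ℝ => (y (pr l 0) / (N : ℝ), y (pr l 1) / (N : ℝ)) :=
    ((continuous_apply (pr l 0)).div_const _).prodMk ((continuous_apply (pr l 1)).div_const _)
  exact h2.comp h1

theorem aN_ne {n : ℕ} (N : ℕ) (y : Fin (2 * n) → ℝ) (l : Fin n) : aN N y l ≠ 0 :=
  at2_ne (y (pr l 0) / N) (y (pr l 1) / N)

theorem cont_gm (hMUL : T_MUL) (hCMK : T_CMK) (n N : ℕ) : Continuous (gm n N) := by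
  have h2 := (hMUL n).2.2.1
  have h3 : Continuous fun y : Fin (2 * n) → ℝ => mu n (aN N y) := h2.comp (cont_aN hMUL n N)
  exact hCMK (Fin (2 * n) → ℝ) n (fun y => mu n (aN N y)) (fun y => mu_ne fun l => aN_ne N y l) h3

theorem cont_gY (hMUL : T_MUL) (hCMK : T_CMK) (n N : ℕ) : Continuous (gY (n := n) N) := by
  refine continuous_pi fun l => ?_
  have h3 : Continuous fun y : Fin (2 * n) → ℝ => aN N y l :=
    (continuous_apply l).comp (cont_aN hMUL n N)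
  exact hCMK (Fin (2 * n) → ℝ) 1 (fun y => aN N y l) (fun y => aN_ne N y l) h3

theorem PL_pull {X Y : Type} (φ : Y → X) (L : List (X → X → X → ℝ)) : ∀ y : ℕ → Y,
    PL L (fun i => φ (y i)) = PL (L.map fun g a b c => g (φ a) (φ b) (φ c)) y := by
  induction L with
  | nil => intro y; rfl
  | cons g L ih =>
    intro y
    have h := ih (sh 2 y)
    rw [List.map_cons]
    change g (φ (y 0)) (φ (y 1)) (φ (y 2)) * PL L (fun i => φ (sh 2 y i)) =
      g (φ (y 0)) (φ (y 1)) (φ (y 2)) *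
        PL (L.map fun g a b c => g (φ a) (φ b) (φ c)) (sh 2 y)
    rw [h]


set_option maxHeartbeats 200000 in
theorem val_eq (hEVL : T_EVL) (hCEL : T_CEL) (n N : ℕ) (H : C(Fin (2 * n) → ℝ, CPn n))
    (HY : C(Fin (2 * n) → ℝ, Fin n → CPn 1)) (hp4 : ∀ y, H y = gg n (HY y)) :
    ev (2 * n) (PL (List.replicate n (ff n))) (vx (2 * n + 1) (ZZ (2 * n) N H)) =
      ev (2 * n) (PL (List.replicate n (gf n))) (vx (2 * n + 1) (ZZ (2 * n) N HY)) := by
  have e1 : vx (2 * n + 1) (ZZ (2 * n) N H) =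
      mapL (2 * n + 1) (gg n) (vx (2 * n + 1) (ZZ (2 * n) N HY)) := by
    rw [(hCEL (CPn n) (2 * n) N H).2.2.2, (hCEL (Fin n → CPn 1) (2 * n) N HY).2.2.2, map_sum]
    refine Finset.sum_congr rfl fun x _ => ?_
    rw [map_sum]
    refine Finset.sum_congr rfl fun π _ => ?_
    rw [mapL_single]
    congr 1
    funext t
    exact hp4 _
  have e2 : (fun y : ℕ → (Fin n → CPn 1) =>
      PL (List.replicate n (ff n)) (fun i => gg n (y i))) =
      PL (List.replicate n (gf n)) := by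
    funext y
    rw [PL_pull, List.map_replicate]
    rfl
  rw [e1, (hEVL (CPn n) (2 * n)).2.2.2.2.2.2 (PL (List.replicate n (ff n))) _ (gg n), e2]

set_option maxHeartbeats 200000 in
theorem pf_FUN (hEVL : T_EVL) (hTCC : T_TCC) (hTCD : T_TCD) (hPER : T_PER) (hMUL : T_MUL)
    (hCMK : T_CMK) (hCEL : T_CEL) (_hVTX : T_VTX) (hDST : T_DST) (hPRD : T_PRD) (hDEG : T_DEG)
    (hTOT : T_TOT) : T_FUN := by
  intro n δ hn hδ
  obtain ⟨K₀, hK₀⟩ := hDEG
  obtain ⟨N₁, hN₁⟩ := hTOT n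
  obtain ⟨N₂, hN₂⟩ := hDST n δ hδ
  obtain ⟨K, hK1, hK2, hK3, hK4⟩ : ∃ K : ℕ, 1 ≤ K ∧ K₀ ≤ K ∧ N₁ ≤ 2 * K ∧ N₂ ≤ 2 * K :=
    ⟨1 + K₀ + N₁ + N₂, by omega, by omega, by omega, by omega⟩
  have hdg := hK₀ K hK2
  obtain ⟨N, hN⟩ : ∃ N : ℕ, N = 2 * K := ⟨_, rfl⟩
  rw [← hN] at hK3 hK4 hdg
  have hN1 : 1 ≤ N := by omega
  obtain ⟨hp1, hp2, hp3, hp4, -, -⟩ := hPER n N hN1
  have cH := cont_gm hMUL hCMK n N
  have cHY := cont_gY hMUL hCMK n N
  obtain ⟨H, hHe⟩ : ∃ H : C(Fin (2 * n) → ℝ, CPn n), ∀ y, H y = gm n N y := ⟨⟨_, cH⟩, fun y => rfl⟩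
  obtain ⟨HY, hHYe⟩ : ∃ HY : C(Fin (2 * n) → ℝ, Fin n → CPn 1), ∀ y, HY y = gY N y :=
    ⟨⟨_, cHY⟩, fun y => rfl⟩
  have hHf : (⇑H : (Fin (2 * n) → ℝ) → CPn n) = gm n N := funext hHe
  obtain ⟨C, hC⟩ := hTCD (CPn n) n N H (by rw [hHf]; exact hp3)
  have hf : (n.factorial : ℤ) ≠ 0 := by exact_mod_cast n.factorial_ne_zero
  have hfR : (n.factorial : ℝ) ≠ 0 := by exact_mod_cast n.factorial_ne_zero
  refine ⟨C, ?_, ?_, ?_⟩
  · -- the chain is a cycle
    have h1 : (n.factorial : ℤ) • bd ℤ (2 * n) (CPn n) C = 0 := by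
      rw [← map_smul, hC]
      exact hTCC (CPn n) (2 * n) N H (by omega) (by rw [hHf]; exact hp2)
    refine Finsupp.ext fun σ => ?_
    have h2 := DFunLike.congr_fun h1 σ
    rw [Finsupp.smul_apply, smul_eq_mul, Finsupp.coe_zero, Pi.zero_apply] at h2
    rw [Finsupp.coe_zero, Pi.zero_apply]
    exact (mul_eq_zero.1 h2).resolve_left hf
  · intro σ hσ
    have h1 : σ ∈ (ZZ (2 * n) N H).support := by
      rw [Finsupp.mem_support_iff] at hσ ⊢
      rw [← hC, Finsupp.smul_apply, smul_eq_mul]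
      exact mul_ne_zero hf hσ
    obtain ⟨x, hx⟩ := (hCEL (CPn n) (2 * n) N H).2.2.1 σ h1
    intro a ha b hb
    obtain ⟨y, hy, rfl⟩ := hx ha
    obtain ⟨y', hy', rfl⟩ := hx hb
    rw [hHe, hHe]
    exact hN₂ N hK4 x y hy y' hy'
  · -- the value
    have e3 : (n.factorial : ℝ) *
        ev (2 * n) (PL (List.replicate n (ff n))) (vx (2 * n + 1) C) =
        ev (2 * n) (PL (List.replicate n (ff n))) (vx (2 * n + 1) (ZZ (2 * n) N H)) := by
      have h := (hEVL (CPn n) (2 * n)).2.1 (PL (List.replicate n (ff n))) (n.factorial : ℤ)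
        (vx (2 * n + 1) C)
      rw [← map_smul, hC] at h
      rw [h, Int.cast_natCast]
    have e4 := val_eq hEVL hCEL n N H HY (fun y => by rw [hHe, hHYe, hp4])
    have e5 := hN₁ N hK3 HY hHYe
    obtain ⟨s, hs, e6⟩ := hPRD n N HY hHYe
    rw [e4, e5, e6] at e3
    have e7 := mul_left_cancel₀ hfR e3
    rw [e7]
    have hd : dg N ^ n = 1 ∨ dg N ^ n = -1 := by
      rcases hdg with h | h
      · left; rw [h, one_pow]
      · rw [h]
        exact neg_one_pow_eq_or ℝ n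
    rcases hs with hs | hs <;> rcases hd with hd | hd <;> rw [hs, hd] <;> norm_num

end Pool.Agent.H99.FL
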