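import Pool.Agent.H58.FL.TargetsB
import Pool.Agent.H63.FL.PER
import Pool.Agent.H99.FL.FUN

/-!
# Board `flc_modules`, row GEP: the map from the cube to the product of two projective spaces
-/

set_option autoImplicit false

noncomputable section

open Topology

namespace Pool.Agent.H99.FL

open Pool.Agent.H58.FL Pool.Agent.H59 Pool.Agent.H48.FR

theorem pq_nat {j l : ℕ} (ρ : Equiv.Perm (Fin j)) (τ : Equiv.Perm (Fin l)) (i : Fin l) :
    pq ρ τ (Fin.natAdd j i) = Fin.natAdd j (τ i) := by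
  unfold pq
  simp

theorem pq_cast {j l : ℕ} (ρ : Equiv.Perm (Fin j)) (τ : Equiv.Perm (Fin l)) (i : Fin j) :
    pq ρ τ (Fin.castAdd l i) = Fin.castAdd l (ρ i) := by
  unfold pq
  simp

theorem aN_pp {n N : ℕ} (σ : Equiv.Perm (Fin n)) (y : Fin (2 * n) → ℝ) (i : Fin n) :
    aN N (fun k => y (pp σ k)) i = aN N y (σ i) := by
  unfold aN
  show at2 (y (pp σ (pr i 0)) / N) (y (pp σ (pr i 1)) / N) = _
  rw [Pool.Agent.H63.FL.pp_pr, Pool.Agent.H63.FL.pp_pr]

theorem cont_mumk (hMUL : T_MUL) (hCMK : T_CMK) (n m N : ℕ) (f : Fin m → Fin n) :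
    Continuous fun y : Fin (2 * n) → ℝ =>
      (mk (mu m fun i => aN N y (f i)) (mu_ne fun i => aN_ne N y (f i)) : CPn m) := by
  have h2 := (hMUL m).2.2.1
  have h4 : Continuous fun y : Fin (2 * n) → ℝ => fun i : Fin m => aN N y (f i) :=
    continuous_pi fun i => (continuous_apply (f i)).comp (cont_aN hMUL n N)
  have h3 : Continuous fun y : Fin (2 * n) → ℝ => mu m fun i => aN N y (f i) := h2.comp h4
  exact hCMK (Fin (2 * n) → ℝ) m (fun y => mu m fun i => aN N y (f i))
    (fun y => mu_ne fun i => aN_ne N y (f i)) h3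

theorem mk_congr {n : ℕ} {x y : Fin (n + 1) → ℂ} (hx : x ≠ 0) (hy : y ≠ 0) (h : x = y) :
    Pool.Agent.H58.FL.mk x hx = Pool.Agent.H58.FL.mk y hy := by
  subst h; rfl

theorem pf_GEP (hMUL : T_MUL) (hCMK : T_CMK) (hMLP : T_MLP) : T_GEP := by
  intro j l N hN
  refine ⟨?_, ?_, ?_, ?_, ?_⟩
  · exact (cont_mumk hMUL hCMK (j + l) l N (Fin.natAdd j)).prodMk
      (cont_mumk hMUL hCMK (j + l) j N (Fin.castAdd l))
  · intro y _ i hi
    choose c hc h using Pool.Agent.H63.FL.upd_aN hN y i hi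
    refine Prod.ext ?_ ?_
    · refine Pool.Agent.H63.FL.mk_eq _ _ (a := ∏ k, c (Fin.natAdd j k))
        (Finset.prod_ne_zero_iff.mpr fun k _ => hc _) ?_
      have h1 : (fun k => aN N (Function.update y i N) (Fin.natAdd j k)) =
          fun k => c (Fin.natAdd j k) • aN N y (Fin.natAdd j k) := funext fun k => h _
      rw [h1]
      exact (hMUL l).1 _ _
    · refine Pool.Agent.H63.FL.mk_eq _ _ (a := ∏ k, c (Fin.castAdd l k))
        (Finset.prod_ne_zero_iff.mpr fun k _ => hc _) ?_
      have h1 : (fun k => aN N (Function.update y i N) (Fin.castAdd l k)) =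
          fun k => c (Fin.castAdd l k) • aN N y (Fin.castAdd l k) := funext fun k => h _
      rw [h1]
      exact (hMUL j).1 _ _
  · intro ρ τ y
    refine Prod.ext ?_ ?_
    · refine mk_congr _ _ ?_
      have h1 : (fun k => aN N (fun i => y (pp (pq ρ τ) i)) (Fin.natAdd j k)) =
          fun k => aN N y (Fin.natAdd j (τ k)) := funext fun k => by rw [aN_pp, pq_nat]
      rw [h1]
      exact (hMUL l).2.1 (fun k => aN N y (Fin.natAdd j k)) τ
    · refine mk_congr _ _ ?_
      have h1 : (fun k => aN N (fun i => y (pp (pq ρ τ) i)) (Fin.castAdd l k)) =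
          fun k => aN N y (Fin.castAdd l (ρ k)) := funext fun k => by rw [aN_pp, pq_cast]
      rw [h1]
      exact (hMUL j).2.1 (fun k => aN N y (Fin.castAdd l k)) ρ
  · intro y
    have h5 := (hMLP j l).2.2.2.2.1 (mu j fun i => aN N y (Fin.castAdd l i))
      (mu l fun i => aN N y (Fin.natAdd j i)) (mu_ne fun i => aN_ne N y _)
      (mu_ne fun i => aN_ne N y _)
    refine Eq.trans h5 ?_
    exact mk_congr _ _ ((hMLP j l).1 (aN N y)).symm
  · intro i₀ y y' hy
    refine mk_congr _ _ ?_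
    congr 1
    funext k
    have hk : Fin.natAdd j k ≠ Fin.castAdd l i₀ := by
      intro hh
      have := congrArg Fin.val hh
      simp only [Fin.val_natAdd, Fin.val_castAdd] at this
      omega
    unfold aN
    rw [hy _ 0 hk, hy _ 1 hk]

end Pool.Agent.H99.FL
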