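import Pool.Agent.H58.FL.TargetsB
import Pool.Agent.H42.FR.SP

/-!
# Board `flc_modules`, row ISO: the multiples of a polynomial form an isometric family of
projective spaces
-/

set_option autoImplicit false

noncomputable section

open Topology

namespace Pool.Agent.H99.FL

open Pool.Agent.H58.FL Pool.Agent.H59 Pool.Agent.H48.FR

/-- the combination of the vectors of a frame -/
def cF {m n : ℕ} (e : Fin m → Fin n → ℂ) (x : Fin m → ℂ) : Fin n → ℂ := ∑ i, x i • e i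

theorem hp_sum_left {ι : Type} {n : ℕ} (s : Finset ι) (f : ι → Fin n → ℂ) (y : Fin n → ℂ) :
    hp (∑ i ∈ s, f i) y = ∑ i ∈ s, hp (f i) y := by
  classical
  induction s using Finset.induction_on with
  | empty => simp [hp]
  | insert a s ha ih => rw [Finset.sum_insert ha, Finset.sum_insert ha, hp_add_left, ih]

theorem hp_cF_left {m n : ℕ} (e : Fin m → Fin n → ℂ) (x : Fin m → ℂ) (y : Fin n → ℂ) :
    hp (cF e x) y = ∑ i, x i * hp (e i) y := by
  unfold cF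
  rw [hp_sum_left]
  exact Finset.sum_congr rfl fun i _ => hp_smul_left _ _ _

theorem hp_cF_e {m n : ℕ} {e : Fin m → Fin n → ℂ}
    (he : ∀ i i', hp (e i) (e i') = if i = i' then 1 else 0) (x : Fin m → ℂ) (k : Fin m) :
    hp (cF e x) (e k) = x k := by
  rw [hp_cF_left, Finset.sum_eq_single k]
  · rw [he, if_pos rfl, mul_one]
  · intro i _ hi
    rw [he, if_neg hi, mul_zero]
  · intro h
    exact absurd (Finset.mem_univ _) h

theorem hp_cF {m n : ℕ} {e : Fin m → Fin n → ℂ}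
    (he : ∀ i i', hp (e i) (e i') = if i = i' then 1 else 0) (x y : Fin m → ℂ) :
    hp (cF e x) (cF e y) = hp x y := by
  rw [hp_cF_left]
  unfold hp
  refine Finset.sum_congr rfl fun i _ => ?_
  have h : hp (e i) (cF e y) = star (y i) := by
    rw [← star_hp, hp_cF_e he]
  unfold hp at h
  rw [h]

theorem nrm_of_hp {m n : ℕ} {x : Fin m → ℂ} {y : Fin n → ℂ} (h : hp x x = hp y y) :
    nrm x = nrm y := by
  rw [hp_self, hp_self] at h
  have h1 : ((nrm x ^ 2 : ℝ) : ℂ) = ((nrm y ^ 2 : ℝ) : ℂ) := h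
  have h2 : nrm x ^ 2 = nrm y ^ 2 := Complex.ofReal_injective h1
  exact (sq_eq_sq₀ (nrm_nonneg _) (nrm_nonneg _)).1 h2

theorem cF_ne {m n : ℕ} {e : Fin m → Fin n → ℂ}
    (he : ∀ i i', hp (e i) (e i') = if i = i' then 1 else 0) {x : Fin m → ℂ} (hx : x ≠ 0) :
    cF e x ≠ 0 := by
  intro h
  apply hx
  rw [← nrm_eq_zero_iff, ← nrm_of_hp (hp_cF he x x), h, nrm_eq_zero_iff]

theorem cF_smul {m n : ℕ} (e : Fin m → Fin n → ℂ) (a : ℂ) (x : Fin m → ℂ) :
    cF e (a • x) = a • cF e x := by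
  unfold cF
  rw [Finset.smul_sum]
  refine Finset.sum_congr rfl fun i _ => ?_
  rw [Pi.smul_apply, smul_smul, smul_eq_mul]

theorem cF_frame_smul {m n : ℕ} (e e' : Fin m → Fin n → ℂ) (a : ℂ) (h : ∀ i, e' i = a • e i)
    (x : Fin m → ℂ) : cF e' x = a • cF e x := by
  unfold cF
  rw [Finset.smul_sum]
  refine Finset.sum_congr rfl fun i _ => ?_
  rw [h, smul_smul, smul_smul, mul_comm]

theorem pd_cF {m n : ℕ} {e : Fin m → Fin n → ℂ}
    (he : ∀ i i', hp (e i) (e i') = if i = i' then 1 else 0) (x y : Fin m → ℂ) :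
    pd (cF e x) (cF e y) = pd x y := by
  rw [pd_def, pd_def, hp_cF he, nrm_of_hp (hp_cF he x x), nrm_of_hp (hp_cF he y y)]

/-- the coordinates -/
def cX {m n : ℕ} (e : Fin m → Fin n → ℂ) (z : Fin n → ℂ) : Fin m → ℂ := fun i => hp z (e i)

theorem cF_cX {m n : ℕ} {e : Fin m → Fin n → ℂ}
    (he : ∀ i i', hp (e i) (e i') = if i = i' then 1 else 0) {z : Fin n → ℂ}
    (hz : ∃ x : Fin m → ℂ, z = ∑ i, x i • e i) : cF e (cX e z) = z := by
  obtain ⟨x, hx⟩ := hz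
  have h1 : z = cF e x := hx
  have h2 : cX e z = x := by
    funext i
    unfold cX
    rw [h1, hp_cF_e he]
  rw [h2, h1]

theorem mk_eq' {n : ℕ} {x y : Fin (n + 1) → ℂ} (hx : x ≠ 0) (hy : y ≠ 0) {a : ℂ} (ha : a ≠ 0)
    (h : x = a • y) : Pool.Agent.H58.FL.mk x hx = Pool.Agent.H58.FL.mk y hy :=
  (PP.mk_eq_iff hx hy).mpr ⟨a, ha, h.symm⟩

theorem quot_map (l j : ℕ) :
    IsQuotientMap fun z : Sph ℂ l × Sph ℂ j => ((prS z.1, prS z.2) : CPn l × CPn j) := by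
  obtain ⟨c1, -, t1, s1⟩ := Pool.Agent.H42.FR.sp ℂ l
  obtain ⟨c2, -, t2, s2⟩ := Pool.Agent.H42.FR.sp ℂ j
  have hf : Continuous fun z : Sph ℂ l × Sph ℂ j => ((prS z.1, prS z.2) : CPn l × CPn j) :=
    (t1.comp continuous_fst).prodMk (t2.comp continuous_snd)
  have hs : Function.Surjective
      fun z : Sph ℂ l × Sph ℂ j => ((prS z.1, prS z.2) : CPn l × CPn j) := by
    rintro ⟨a, b⟩
    obtain ⟨x, hx⟩ := s1 a
    obtain ⟨y, hy⟩ := s2 b
    exact ⟨(x, y), Prod.ext hx hy⟩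
  exact (hf.isClosedMap).isQuotientMap hf hs

theorem cont_cF {A : Type} [TopologicalSpace A] {m n : ℕ} {e : A → Fin m → Fin n → ℂ}
    {x : A → Fin m → ℂ} (he : ∀ i, Continuous fun a => e a i) (hx : Continuous x) :
    Continuous fun a => cF (e a) (x a) := by
  unfold cF
  exact continuous_finsetSum _ fun i _ => ((continuous_apply i).comp hx).smul (he i)

theorem cont_hp {A : Type} [TopologicalSpace A] {n : ℕ} {x y : A → Fin n → ℂ}
    (hx : Continuous x) (hy : Continuous y) : Continuous fun a => hp (x a) (y a) := by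
  unfold hp
  refine continuous_finsetSum _ fun k _ => ?_
  have h1 : Continuous fun a => x a k := (continuous_apply k).comp hx
  have h2 : Continuous fun a => star (y a k) := ((continuous_apply k).comp hy).star
  exact h1.mul h2

theorem cont_cX {A : Type} [TopologicalSpace A] {m n : ℕ} {e : A → Fin m → Fin n → ℂ}
    {z : A → Fin n → ℂ} (he : ∀ i, Continuous fun a => e a i) (hz : Continuous z) :
    Continuous fun a => cX (e a) (z a) := by
  refine continuous_pi fun i => ?_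
  exact cont_hp hz (he i)

theorem cn_ne (c : ℂ) (hc0 : c ≠ 0) : c / ((‖c‖ : ℝ) : ℂ) ≠ 0 :=
  div_ne_zero hc0 (Complex.ofReal_ne_zero.2 (norm_ne_zero_iff.2 hc0))

/-- the properties of the frames -/
structure Frm (j l : ℕ) (e : (Fin (l + 1) → ℂ) → Fin (j + 1) → Fin (j + l + 1) → ℂ) : Prop where
  hc : ∀ i, ContinuousOn (fun w => e w i) {w | w ≠ 0}
  ho : ∀ w, w ≠ 0 → ∀ i i', hp (e w i) (e w i') = if i = i' then 1 else 0
  hs : ∀ w, w ≠ 0 → ∀ c : ℂ, c ≠ 0 → ∀ i, e (c • w) i = (c / ((‖c‖ : ℝ) : ℂ)) • e w i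
  hm : ∀ w, w ≠ 0 → ∀ p : Fin (j + 1) → ℂ, ∃ x : Fin (j + 1) → ℂ, ml p w = ∑ i, x i • e w i

variable {j l : ℕ} {e : (Fin (l + 1) → ℂ) → Fin (j + 1) → Fin (j + l + 1) → ℂ}

theorem Frm.xne (H : Frm j l e) {w : Fin (l + 1) → ℂ} (hw : w ≠ 0) {p : Fin (j + 1) → ℂ}
    (hp : p ≠ 0) : cX (e w) (ml p w) ≠ 0 := by
  intro h
  have h1 := cF_cX (H.ho w hw) (H.hm w hw p)
  rw [h] at h1
  refine ml_ne hp hw ?_
  rw [← h1]
  unfold cF
  simp

/-- the isometric embeddings -/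
def io (H : Frm j l e) (b : CPn l) (x : CPn j) : CPn (j + l) :=
  mk (cF (e (PP.rep b)) (PP.rep x)) (cF_ne (H.ho _ (PP.rep_ne b)) (PP.rep_ne x))

/-- the maps -/
def iA (H : Frm j l e) (b : CPn l) (p : CPn j) : CPn j :=
  mk (cX (e (PP.rep b)) (ml (PP.rep p) (PP.rep b))) (H.xne (PP.rep_ne b) (PP.rep_ne p))

theorem io_prS (H : Frm j l e) (z : Sph ℂ l × Sph ℂ j) :
    io H (prS z.1) (prS z.2) = mk (cF (e z.1.1) z.2.1)
      (cF_ne (H.ho _ (sph_ne z.1)) (sph_ne z.2)) := by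
  obtain ⟨c, hc0, h1⟩ := PP.exists_rep z.1.1 (sph_ne z.1)
  obtain ⟨a, ha0, h2⟩ := PP.exists_rep z.2.1 (sph_ne z.2)
  have h1' : PP.rep (prS z.1) = c • z.1.1 := h1
  have h2' : PP.rep (prS z.2) = a • z.2.1 := h2
  refine mk_eq' _ _ (a := a * (c / ((‖c‖ : ℝ) : ℂ))) (mul_ne_zero ha0 (cn_ne c hc0)) ?_
  rw [h1', h2', cF_smul, cF_frame_smul (e z.1.1) (e (c • z.1.1)) _
    (fun i => H.hs _ (sph_ne z.1) c hc0 i), smul_smul]

theorem iA_prS (H : Frm j l e)
    (hsm : ∀ (c d : ℂ) (p : Fin (j + 1) → ℂ) (w : Fin (l + 1) → ℂ),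
      ml (c • p) (d • w) = (c * d) • ml p w) (z : Sph ℂ l × Sph ℂ j) :
    iA H (prS z.1) (prS z.2) = mk (cX (e z.1.1) (ml z.2.1 z.1.1))
      (H.xne (sph_ne z.1) (sph_ne z.2)) := by
  obtain ⟨c, hc0, h1⟩ := PP.exists_rep z.1.1 (sph_ne z.1)
  obtain ⟨a, ha0, h2⟩ := PP.exists_rep z.2.1 (sph_ne z.2)
  have h1' : PP.rep (prS z.1) = c • z.1.1 := h1
  have h2' : PP.rep (prS z.2) = a • z.2.1 := h2
  refine mk_eq' _ _ (a := (a * c) * star (c / ((‖c‖ : ℝ) : ℂ)))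
    (mul_ne_zero (mul_ne_zero ha0 hc0) (star_ne_zero.2 (cn_ne c hc0))) ?_
  rw [h1', h2', hsm]
  funext i
  unfold cX
  rw [H.hs _ (sph_ne z.1) c hc0 i, hp_smul_left, hp_smul_right, Pi.smul_apply, smul_eq_mul]
  ring

theorem cont_w : Continuous fun z : Sph ℂ l × Sph ℂ j => (z.1 : Fin (l + 1) → ℂ) :=
  continuous_subtype_val.comp continuous_fst

theorem cont_x : Continuous fun z : Sph ℂ l × Sph ℂ j => (z.2 : Fin (j + 1) → ℂ) :=
  continuous_subtype_val.comp continuous_snd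

theorem Frm.ce (H : Frm j l e) (i : Fin (j + 1)) :
    Continuous fun z : Sph ℂ l × Sph ℂ j => e z.1.1 i :=
  (H.hc i).comp_continuous cont_w fun z => sph_ne z.1

theorem cont_io (H : Frm j l e) (hCMK : T_CMK) :
    Continuous fun p : CPn l × CPn j => io H p.1 p.2 := by
  rw [(quot_map l j).continuous_iff]
  have he : ((fun p : CPn l × CPn j => io H p.1 p.2) ∘
      fun z : Sph ℂ l × Sph ℂ j => ((prS z.1, prS z.2) : CPn l × CPn j)) =
      fun z : Sph ℂ l × Sph ℂ j => mk (cF (e z.1.1) z.2.1)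
        (cF_ne (H.ho _ (sph_ne z.1)) (sph_ne z.2)) := funext fun z => io_prS H z
  rw [he]
  have h := cont_cF (A := Sph ℂ l × Sph ℂ j) (e := fun z => e z.1.1) (x := fun z => z.2.1)
    (fun i => H.ce i) cont_x
  exact hCMK (Sph ℂ l × Sph ℂ j) (j + l) (fun z => cF (e z.1.1) z.2.1)
    (fun z => cF_ne (H.ho _ (sph_ne z.1)) (sph_ne z.2)) h

theorem cont_iA (H : Frm j l e) (hCMK : T_CMK)
    (hsm : ∀ (c d : ℂ) (p : Fin (j + 1) → ℂ) (w : Fin (l + 1) → ℂ),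
      ml (c • p) (d • w) = (c * d) • ml p w)
    (hmc : Continuous fun q : (Fin (j + 1) → ℂ) × (Fin (l + 1) → ℂ) => ml q.1 q.2) :
    Continuous fun p : CPn l × CPn j => iA H p.1 p.2 := by
  rw [(quot_map l j).continuous_iff]
  have he : ((fun p : CPn l × CPn j => iA H p.1 p.2) ∘
      fun z : Sph ℂ l × Sph ℂ j => ((prS z.1, prS z.2) : CPn l × CPn j)) =
      fun z : Sph ℂ l × Sph ℂ j => mk (cX (e z.1.1) (ml z.2.1 z.1.1))
        (H.xne (sph_ne z.1) (sph_ne z.2)) := funext fun z => iA_prS H hsm z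
  rw [he]
  have cxw : Continuous fun z : Sph ℂ l × Sph ℂ j =>
      ((z.2.1, z.1.1) : (Fin (j + 1) → ℂ) × (Fin (l + 1) → ℂ)) :=
    (cont_x (l := l) (j := j)).prodMk (cont_w (l := l) (j := j))
  have cm : Continuous fun z : Sph ℂ l × Sph ℂ j => ml z.2.1 z.1.1 := by
    have h := hmc.comp cxw
    simpa only [Function.comp_def] using h
  have h := cont_cX (A := Sph ℂ l × Sph ℂ j) (e := fun z => e z.1.1)
    (z := fun z => ml z.2.1 z.1.1) (fun i => H.ce i) cm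
  exact hCMK (Sph ℂ l × Sph ℂ j) j (fun z => cX (e z.1.1) (ml z.2.1 z.1.1))
    (fun z => H.xne (sph_ne z.1) (sph_ne z.2)) h

theorem isom_io (H : Frm j l e) (b : CPn l) : Isometry (io H b) := by
  refine Isometry.of_dist_eq fun x y => ?_
  have h : dist (io H b x) (io H b y) =
      pd (cF (e (PP.rep b)) (PP.rep x)) (cF (e (PP.rep b)) (PP.rep y)) :=
    dist_mk (cF_ne (H.ho _ (PP.rep_ne b)) (PP.rep_ne x))
      (cF_ne (H.ho _ (PP.rep_ne b)) (PP.rep_ne y))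
  rw [h, pd_cF (H.ho _ (PP.rep_ne b))]
  exact (dist_def x y).symm

theorem io_iA (H : Frm j l e) (b : CPn l) (x : CPn j) : io H b (iA H b x) = mP x b := by
  obtain ⟨a, ha0, h1⟩ := PP.exists_rep (cX (e (PP.rep b)) (ml (PP.rep x) (PP.rep b)))
    (H.xne (PP.rep_ne b) (PP.rep_ne x))
  refine mk_eq' _ _ (a := a) ha0 ?_
  have h2 : PP.rep (iA H b x) = a • cX (e (PP.rep b)) (ml (PP.rep x) (PP.rep b)) := h1
  rw [h2, cF_smul, cF_cX (H.ho _ (PP.rep_ne b)) (H.hm _ (PP.rep_ne b) _)]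

theorem pf_ISO (hGSC : T_GSC) (hMLP : T_MLP) (hCMK : T_CMK) : T_ISO := by
  intro j l
  obtain ⟨e, hc, ho, hs, hm⟩ := hGSC j l
  obtain ⟨-, hsm, -, hmc, -, -⟩ := hMLP j l
  have H : Frm j l e := ⟨hc, ho, hs, hm⟩
  exact ⟨io H, iA H, cont_io H hCMK, cont_iA H hCMK hsm hmc, isom_io H, io_iA H⟩

end Pool.Agent.H99.FL
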