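import Pool.Agent.H58.FL.Targets

/-!
# Board `flb_modules`, row MUL: products of linear forms
-/

set_option autoImplicit false

noncomputable section

open Topology Polynomial

namespace Pool.Agent.H99.FL

open Pool.Agent.H58.FL Pool.Agent.H59 Pool.Agent.H48.FR

theorem cont_coeff {n : ℕ} (s : Finset (Fin n)) : ∀ k : ℕ,
    Continuous fun u : Fin n → Fin 2 → ℂ =>
      (∏ l ∈ s, (C (u l 0) + C (u l 1) * X)).coeff k := by
  classical
  induction s using Finset.induction_on with
  | empty =>
    intro k
    simp only [Finset.prod_empty]
    exact continuous_const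
  | insert a s ha ih =>
    intro k
    simp only [Finset.prod_insert ha, coeff_mul]
    refine continuous_finsetSum _ fun q _ => ?_
    refine Continuous.mul ?_ (ih q.2)
    simp only [coeff_add, coeff_C, coeff_C_mul, coeff_X]
    have h0 : Continuous fun u : Fin n → Fin 2 → ℂ => u a 0 :=
      (continuous_apply 0).comp (continuous_apply a)
    have h1 : Continuous fun u : Fin n → Fin 2 → ℂ => u a 1 :=
      (continuous_apply 1).comp (continuous_apply a)
    refine Continuous.add ?_ (h1.mul continuous_const)
    by_cases hq : q.1 = 0
    · simpa [hq] using h0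
    · simpa [hq] using continuous_const

theorem pf_MUL : T_MUL := by
  intro n
  refine ⟨fun u c => ?_, fun u ρ => ?_, ?_, ?_⟩
  · funext k
    have h : (∏ l : Fin n, (C ((c l • u l) 0) + C ((c l • u l) 1) * X)) =
        C (∏ l, c l) * ∏ l : Fin n, (C (u l 0) + C (u l 1) * X) := by
      rw [map_prod, ← Finset.prod_mul_distrib]
      refine Finset.prod_congr rfl fun l _ => ?_
      rw [Pi.smul_apply, Pi.smul_apply, smul_eq_mul, smul_eq_mul, C_mul, C_mul]
      ring
    unfold mu
    rw [h, coeff_C_mul]
    rfl
  · funext k
    unfold mu
    exact congrArg (fun p => Polynomial.coeff p (k : ℕ))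
      (Equiv.prod_comp ρ (fun l => C (u l 0) + C (u l 1) * X))
  · refine continuous_pi fun k => ?_
    exact cont_coeff Finset.univ (k : ℕ)
  · refine continuous_pi fun i => ?_
    have hE : Continuous fun p : ℝ × ℝ => Complex.exp (2 * Real.pi * p.1 * Complex.I) := by
      refine Complex.continuous_exp.comp ?_
      exact (continuous_const.mul (Complex.continuous_ofReal.comp continuous_fst)).mul
        continuous_const
    have hA : Continuous fun p : ℝ × ℝ => Real.pi * p.2 := continuous_const.mul continuous_snd
    have hC : Continuous fun p : ℝ × ℝ => Real.cos (Real.pi * p.2) :=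
      Real.continuous_cos.comp hA
    have hS : Continuous fun p : ℝ × ℝ => Real.sin (Real.pi * p.2) :=
      Real.continuous_sin.comp hA
    fin_cases i
    · simp only [at2]
      exact (Complex.continuous_ofReal.comp (hC.max continuous_const)).sub
        ((Complex.continuous_ofReal.comp (hC.neg.max continuous_const)).mul hE)
    · simp only [at2]
      exact (Complex.continuous_ofReal.comp hS).mul hE

end Pool.Agent.H99.FL
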