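import Pool.Agent.H58.FL.Targets

/-!
# Board `flb_modules`, row SML: small simplices
-/

set_option autoImplicit false

noncomputable section

open Topology

namespace Pool.Agent.H99.FL

open Pool.Agent.H58.FL Pool.Agent.H59 Pool.Agent.H48.FR

theorem small_one {Y Z : Type} [TopologicalSpace Y] [PseudoMetricSpace Z] (j : C(Y, Z)) {n : ℕ}
    (σ : Smp n Y) {δ : ℝ} (hδ : 0 < δ) : ∃ m₀ : ℕ, ∀ m, m₀ ≤ m →
      SdI n m (Finsupp.single σ 1) ∈ Finsupp.supported ℤ ℤ
        {τ : Smp n Y | ∀ i i' : Fin n, dist (j (τ (vtx n i))) (j (τ (vtx n i'))) < δ} := by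
  have huc : UniformContinuous (fun x : Dl n => j (σ x)) :=
    CompactSpace.uniformContinuous_of_continuous (j.continuous.comp σ.continuous)
  obtain ⟨η, hη, hη2⟩ := Metric.uniformContinuous_iff.1 huc δ hδ
  obtain ⟨m₀, hm₀⟩ := exists_pow_lt_of_lt_one hη (cc_lt_one n)
  refine ⟨m₀, fun m hm => ?_⟩
  rw [← push_vtx, SdI_push]
  refine lin_mem _ _ _ (fun w hw => ?_) (SdLI_supported m)
  rw [push_single]
  refine Finsupp.single_mem_supported ℤ 1 ?_
  intro i i'
  have hlt : cc n ^ m < η := lt_of_le_of_lt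
    (pow_le_pow_of_le_one (cc_nonneg n) (cc_lt_one n).le hm) hm₀
  have e : ∀ i, (σ.comp (affS w)) (vtx n i) = σ (w i) := fun i => by
    have h := congrFun (affS_comp_vtx w) i
    simp only [Function.comp_apply] at h
    rw [ContinuousMap.comp_apply, h]
  rw [e, e]
  exact hη2 ((hw i i').trans_lt hlt)

theorem pf_SML : T_SML := by
  intro Y Z _ _ j n c δ hδ
  choose m hm using fun σ : Smp n Y => small_one j σ hδ
  refine ⟨c.support.sup m, fun k hk => ?_⟩
  have h1 : SdI n k c ∈ Finsupp.supported ℤ ℤ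
      {τ : Smp n Y | ∀ i i' : Fin n, dist (j (τ (vtx n i))) (j (τ (vtx n i'))) < δ} := by
    refine lin_mem (SdI n k) (↑c.support) _ (fun σ hσ => ?_)
      ((Finsupp.mem_supported ℤ c).2 (subset_refl _))
    exact hm σ k ((Finset.le_sup (f := m) (Finset.mem_coe.1 hσ)).trans hk)
  rw [Finsupp.mem_supported] at h1
  intro σ hσ i i'
  exact h1 (Finset.mem_coe.2 hσ) i i'

end Pool.Agent.H99.FL
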